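import Pool.Agent.H308R2.ZS.Stubs

set_option autoImplicit false

open scoped ComplexConjugate Kronecker Matrix.Norms.L2Operator CStarAlgebra

namespace Pool.Agent.H308R2.ZS.T_SPEC

open Pool.Agent.H923R2.FP Pool.Agent.H923R2.FZ Pool.Agent.H308R2.ZS

/-- `lft` as a linear map -/
noncomputable def Lm (n : ℕ) : Matrix (Fin (n + 1)) (Fin (n + 1)) ℂ →ₗ[ℂ] MM n where
  toFun := lft n
  map_add' x y := (lft_add n x y).symm
  map_smul' c x := lft_smul n c x

/-- `rgt` as a linear map -/
noncomputable def Rm (n : ℕ) : Matrix (Fin (n + 2)) (Fin (n + 2)) ℂ →ₗ[ℂ] MM n where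
  toFun := rgt n
  map_add' x y := (rgt_add n x y).symm
  map_smul' c x := rgt_smul n c x

theorem closed (n : ℕ) : IsClosed (dimDrop n : Set C(unitInterval, MM n)) := by
  have h1 : IsClosed ((LinearMap.range (Lm n) : Submodule ℂ (MM n)) : Set (MM n)) :=
    Submodule.closed_of_finiteDimensional _
  have h2 : IsClosed ((LinearMap.range (Rm n) : Submodule ℂ (MM n)) : Set (MM n)) :=
    Submodule.closed_of_finiteDimensional _
  have e0 : Continuous (fun F : C(unitInterval, MM n) => F 0) := continuous_eval_const _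
  have e1 : Continuous (fun F : C(unitInterval, MM n) => F 1) := continuous_eval_const _
  have : (dimDrop n : Set C(unitInterval, MM n)) =
      (fun F : C(unitInterval, MM n) => F 0) ⁻¹' (LinearMap.range (Lm n) : Submodule ℂ (MM n)) ∩
      (fun F : C(unitInterval, MM n) => F 1) ⁻¹' (LinearMap.range (Rm n) : Submodule ℂ (MM n)) := by
    ext F
    constructor
    · rintro ⟨⟨x, hx⟩, y, hy⟩
      exact ⟨⟨x, hx.symm⟩, ⟨y, hy.symm⟩⟩
    · rintro ⟨⟨x, hx⟩, ⟨y, hy⟩⟩
      exact ⟨⟨x, hx.symm⟩, ⟨y, hy.symm⟩⟩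
  rw [this]
  exact (h1.preimage e0).inter (h2.preimage e1)

theorem sum_D0 (n : ℕ) (c : ℝ) : ∑ m, D0 n m m c =
    Matrix.diagonal (fun p : Ix n => if p.2 = Fin.last (n + 1) then (c : ℂ) else 1) := by
  ext p q
  rw [Matrix.sum_apply, Matrix.diagonal_apply]
  by_cases hpq : p = q
  · subst hpq
    rw [if_pos rfl]
    simp [D0]
  · rw [if_neg hpq]
    refine Finset.sum_eq_zero fun m _ => ?_
    simp only [D0, Matrix.of_apply]
    rw [if_neg]
    rintro ⟨h1, h2, h3⟩
    exact hpq (Prod.ext (h1.trans h2.symm) h3)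

theorem star_D0 (n : ℕ) (m : Fin (n + 1)) (c : ℝ) : star (D0 n m m c) = D0 n m m c := by
  ext p q
  rw [Matrix.star_apply]
  simp only [D0, Matrix.of_apply]
  by_cases h : p.1 = m ∧ q.1 = m ∧ p.2 = q.2
  · rw [if_pos h, if_pos ⟨h.2.1, h.1, h.2.2.symm⟩, h.2.2]
    split_ifs <;> simp
  · rw [if_neg h, if_neg]
    · simp
    · rintro ⟨h1, h2, h3⟩
      exact h ⟨h2, h1, h3.symm⟩

/-- evaluation -/
noncomputable def ev (n : ℕ) (t : unitInterval) : dimDrop n →⋆ₐ[ℂ] MM n where
  toFun F := (F : C(unitInterval, MM n)) t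
  map_one' := rfl
  map_mul' _ _ := rfl
  map_zero' := rfl
  map_add' _ _ := rfl
  commutes' _ := rfl
  map_star' _ := rfl

theorem t_SPEC (hWU : S_WU) : S_SPEC := by
  intro n φ k v hV B _ τ hτ d hd F hF hF0 hF1
  obtain ⟨s0, hs0, hFs0⟩ := hF1
  have hcl : IsClosed (dimDrop n : Set C(unitInterval, MM n)) := closed n
  let _ : CStarAlgebra (dimDrop n) := StarSubalgebra.cstarAlgebra (dimDrop n)
  set h : dimDrop n := ∑ m, φ m m with hh
  have hU := (hWU n).2.2.2.2.2.2.2
  have hsa0 : star h = h := by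
    rw [hh, star_sum]
    refine Finset.sum_congr rfl fun m _ => ?_
    apply Subtype.ext
    apply ContinuousMap.ext
    intro t
    change star ((φ m m : C(unitInterval, MM n)) t) = (φ m m : C(unitInterval, MM n)) t
    rw [hV.ph, phf, star_mul, star_mul, star_star, star_D0, mul_assoc]
  have hsa : IsSelfAdjoint h := hsa0
  have hsad : IsSelfAdjoint (d h) := hsa.map d
  have hval : ∀ t : unitInterval, ev n t h = WW n t *
      Matrix.diagonal (fun p : Ix n => if p.2 = Fin.last (n + 1) then ((1 - (t : ℝ) : ℝ) : ℂ) else 1)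
      * star (WW n t) := by
    intro t
    rw [hh, map_sum, ← sum_D0, Finset.mul_sum, Finset.sum_mul]
    refine Finset.sum_congr rfl fun m _ => ?_
    exact hV.ph m m t
  -- the point s0 is in the spectrum of h
  have hspec : s0 ∈ spectrum ℝ h := by
    have ht : (1 - s0) ∈ unitInterval := ⟨by linarith [hs0.2], by linarith [hs0.1]⟩
    set t : unitInterval := ⟨1 - s0, ht⟩ with htdef
    rw [spectrum.mem_iff]
    intro hunit
    have h1 : IsUnit (ev n t (algebraMap ℝ (dimDrop n) s0 - h)) := hunit.map (ev n t)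
    have h2 : ev n t (algebraMap ℝ (dimDrop n) s0 - h) = WW n t *
        Matrix.diagonal (fun p : Ix n => if p.2 = Fin.last (n + 1) then (0 : ℂ) else (s0 : ℂ) - 1)
        * star (WW n t) := by
      rw [map_sub, hval]
      have h3 : ev n t (algebraMap ℝ (dimDrop n) s0) = WW n t * ((s0 : ℂ) • (1 : MM n)) *
          star (WW n t) := by
        have h4 : ev n t (algebraMap ℝ (dimDrop n) s0) = (s0 : ℂ) • (1 : MM n) := by
          rw [Algebra.algebraMap_eq_smul_one]
          have : (s0 • (1 : dimDrop n)) = ((s0 : ℂ) • (1 : dimDrop n)) := by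
            rw [Complex.coe_smul]
          rw [this, map_smul, map_one]
        rw [h4, mul_smul_comm, mul_one, smul_mul_assoc, (hU t).1]
      rw [h3, ← sub_mul, ← mul_sub]
      congr 2
      ext p q
      rw [Matrix.sub_apply, Matrix.smul_apply, Matrix.one_apply, Matrix.diagonal_apply,
        Matrix.diagonal_apply]
      by_cases hpq : p = q
      · subst hpq
        rw [if_pos rfl, if_pos rfl, if_pos rfl]
        split_ifs <;> simp [htdef]
      · rw [if_neg hpq, if_neg hpq, if_neg hpq]; simp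
    rw [h2] at h1
    have hW : IsUnit (WW n t) := ⟨⟨WW n t, star (WW n t), (hU t).1, (hU t).2⟩, rfl⟩
    have hW' : IsUnit (star (WW n t)) := ⟨⟨star (WW n t), WW n t, (hU t).2, (hU t).1⟩, rfl⟩
    have h5 : IsUnit (Matrix.diagonal (fun p : Ix n =>
        if p.2 = Fin.last (n + 1) then (0 : ℂ) else (s0 : ℂ) - 1)) := by
      have := (hW'.mul h1).mul hW
      have e : star (WW n t) * (WW n t * Matrix.diagonal (fun p : Ix n =>
        if p.2 = Fin.last (n + 1) then (0 : ℂ) else (s0 : ℂ) - 1) * star (WW n t)) * WW n t =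
        Matrix.diagonal (fun p : Ix n =>
        if p.2 = Fin.last (n + 1) then (0 : ℂ) else (s0 : ℂ) - 1) := by
        calc _ = (star (WW n t) * WW n t) * Matrix.diagonal (fun p : Ix n =>
              if p.2 = Fin.last (n + 1) then (0 : ℂ) else (s0 : ℂ) - 1) *
              (star (WW n t) * WW n t) := by simp only [mul_assoc]
          _ = _ := by rw [(hU t).2, one_mul, mul_one]
      rwa [e] at this
    rw [Matrix.isUnit_diagonal] at h5
    have h6 := (Pi.isUnit_iff.mp h5) ((0 : Fin (n + 1)), Fin.last (n + 1))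
    simp at h6
  -- the square root
  set g : ℝ → ℝ := fun t => √(F t) with hg
  have hgc : Continuous g := Real.continuous_sqrt.comp hF
  have hgg : ∀ t, g t * g t = F t := fun t => Real.mul_self_sqrt (hF0 t)
  have e1 : cfc F (d h) = star (cfc g (d h)) * cfc g (d h) := by
    have hs : star (cfc g (d h)) = cfc g (d h) := (cfc_predicate g (d h) : IsSelfAdjoint _)
    rw [hs, ← cfc_mul g g (d h) (hgc.continuousOn) (hgc.continuousOn)]
    refine cfc_congr fun t _ => (hgg t).symm
  rw [e1]
  refine lt_of_le_of_ne (hτ.nonneg _) fun h0 => ?_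
  have hy : cfc g (d h) = 0 := hτ.faith _ h0.symm
  have hdc : Continuous d := map_continuous d
  have e2 : d (cfc g h) = cfc g (d h) :=
    StarAlgHomClass.map_cfc d g h (hgc.continuousOn) hdc hsa hsad
  rw [hy] at e2
  have e3 : cfc g h = 0 := hd (by rw [e2, map_zero])
  have e4 : spectrum ℝ (cfc g h) = g '' spectrum ℝ h := cfc_map_spectrum g h hsa hgc.continuousOn
  rw [e3] at e4
  have e5 : g s0 ∈ spectrum ℝ (0 : dimDrop n) := e4 ▸ ⟨s0, hspec, rfl⟩
  have hnt : Nontrivial (dimDrop n) := by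
    refine ⟨⟨0, 1, fun h01 => ?_⟩⟩
    have : (ev n 0) 0 = (ev n 0) 1 := by rw [h01]
    rw [map_zero, map_one] at this
    exact zero_ne_one this
  rw [spectrum.zero_eq] at e5
  have e6 : g s0 = 0 := e5
  exact hFs0 (by rw [← hgg, e6, zero_mul])

end Pool.Agent.H308R2.ZS.T_SPEC
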